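import Pool.Agent.H15.HLS.Targets

/-! Board `hls_modules`, row EXB: every cell outside of the big hole lies in a block. -/

set_option autoImplicit false

namespace Pool.Agent.H42.HLS.EXB

open Pool.Agent.H51.Homog Pool.Agent.H22.HSQ Pool.Agent.H15.HLS

theorem pf_EXB : T_EXB := by
  intro v W T g q hq ρ κ hρκ
  rcases ρ with ⟨x, i⟩ | s <;> rcases κ with ⟨y, j⟩ | t
  · exact ⟨x, y, Sum.inl i, Sum.inl j, rfl, rfl, fun h => by simp [InHole] at h⟩
  · refine ⟨x, (g t - x) * q, Sum.inl i, Sum.inr ⟨t, ?_⟩, rfl, rfl, fun h => by simp [InHole] at h⟩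
    linear_combination (-(g t - x)) * hq
  · exact ⟨g s - 3 * y, y, Sum.inr ⟨s, by ring⟩, Sum.inl j, rfl, rfl,
      fun h => by simp [InHole] at h⟩
  · exact absurd ⟨rfl, rfl⟩ hρκ

end Pool.Agent.H42.HLS.EXB
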