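import Pool.Agent.H15.HLS.Targets

/-! Board `hls_modules`, row HIN: the rows and columns of the hole. -/

set_option autoImplicit false

namespace Pool.Agent.H42.HLS.HIN

open Pool.Agent.H51.Homog Pool.Agent.H22.HSQ Pool.Agent.H15.HLS

private theorem key {W H : Type} [Fintype H] (f : W ⊕ H → W ⊕ H) (hf : Function.Injective f)
    (hh : ∀ b : H, (f (Sum.inr b)).isRight) (i : W) : (f (Sum.inl i)).isLeft := by
  have h1 : ∀ b : H, ∃ d : H, f (Sum.inr b) = Sum.inr d := fun b => Sum.isRight_iff.1 (hh b)
  choose g hg using h1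
  have hinj : Function.Injective g := fun b b' hbb => by
    have h2 : f (Sum.inr b) = f (Sum.inr b') := by rw [hg, hg, hbb]
    exact Sum.inr_injective (hf h2)
  have hsur : Function.Surjective g := Finite.surjective_of_injective hinj
  cases h3 : f (Sum.inl i) with
  | inl x => rfl
  | inr c =>
    obtain ⟨b, rfl⟩ := hsur c
    rw [← hg b] at h3
    exact absurd (hf h3) Sum.inl_ne_inr

theorem pf_HIN : T_HIN := by
  intro W H _ _ h A hA
  exact ⟨fun a i => key (A (Sum.inr a)) (hA.latin.1 _).injective (fun b => hA.hole a b) i,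
    fun i a => key (fun r => A r (Sum.inr a)) (hA.latin.2 _).injective (fun b => hA.hole b a) i⟩

end Pool.Agent.H42.HLS.HIN
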