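import Pool.Agent.H42.HLS.PSQ

/-! Board `hls_modules`, row HOZ: holey squares from inflated cyclic squares of odd order. -/

set_option autoImplicit false

namespace Pool.Agent.H42.HLS.HOZ

open Pool.Agent.H51.Homog Pool.Agent.H22.HSQ Pool.Agent.H15.HLS Pool.Agent.H42.HLS.PSQ

theorem pf_HOZ (_hTRH : T_TRH) : T_HOZ := by
  intro h s k hs
  obtain ⟨B, hBl, hBh⟩ := hs
  obtain ⟨d, hd⟩ := two_inv (k := 2 * k + 1) ⟨k, rfl⟩
  have hF : NoInt (fun i j : ZMod (2 * k + 1) => i + j) := by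
    intro i j i' j' h1 h2
    dsimp only at h1 h2
    constructor
    · linear_combination d * (h1 + h2) - (i' - i) * hd
    · linear_combination d * (h1 - h2) - (j' - j) * hd
  have hFl : IsLatin (fun i j : ZMod (2 * k + 1) => i + j) :=
    ⟨fun i => (Equiv.addLeft i).bijective, fun j => (Equiv.addRight j).bijective⟩
  have hc : Fintype.card (Fin (2 * k)) = Fintype.card {x : ZMod (2 * k + 1) // x ≠ 0} := by
    have h1 : Fintype.card {x : ZMod (2 * k + 1) | x ≠ 0} = _ := Set.card_ne_eq 0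
    rw [ZMod.card] at h1
    rw [Fintype.card_fin]
    exact h1.symm
  let e0 : Fin (2 * k * s) ≃ {x : ZMod (2 * k + 1) // x ≠ 0} × Fin s :=
    finProdFinEquiv.symm.trans ((Fintype.equivOfCardEq hc).prodCongr (Equiv.refl _))
  let f : Fin (2 * k * s) ⊕ Fin s → ZMod (2 * k + 1) × Fin s :=
    Sum.elim (fun p => ((e0 p).1.1, (e0 p).2)) (fun i => (0, i))
  have hfi : Function.Injective f := by
    rintro (p | i) (p' | i') hh
    · have h3 : ((e0 p).1.1, (e0 p).2) = ((e0 p').1.1, (e0 p').2) := hh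
      have h1 : (e0 p).1.1 = (e0 p').1.1 := congrArg Prod.fst h3
      have h2 : (e0 p).2 = (e0 p').2 := (Prod.mk.inj h3).2
      rw [e0.injective (Prod.ext (Subtype.ext h1) h2)]
    · have h1 : (e0 p).1.1 = 0 := congrArg Prod.fst hh
      exact absurd h1 (e0 p).1.2
    · have h1 : 0 = (e0 p').1.1 := congrArg Prod.fst hh
      exact absurd h1.symm (e0 p').1.2
    · have h2 : i = i' := congrArg Prod.snd hh
      rw [h2]
  have hfs : Function.Surjective f := by
    rintro ⟨x, i⟩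
    by_cases hx : x = 0
    · exact ⟨Sum.inr i, by rw [hx]; rfl⟩
    · refine ⟨Sum.inl (e0.symm (⟨x, hx⟩, i)), ?_⟩
      change ((e0 (e0.symm (⟨x, hx⟩, i))).1.1, (e0 (e0.symm (⟨x, hx⟩, i))).2) = (x, i)
      rw [Equiv.apply_symm_apply]
  exact ⟨_, hol_conj hF hFl hBl hBh 0 (add_zero 0) (Equiv.ofBijective f ⟨hfi, hfs⟩)
    (fun w => (e0 w).1.2) (fun i => rfl)⟩

end Pool.Agent.H42.HLS.HOZ
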