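import Pool.Agent.H42.HLS.PSQ

/-! Board `hls_modules`, row MSQ: the square over `T`. -/

set_option autoImplicit false

namespace Pool.Agent.H42.HLS.MSQ

open Pool.Agent.H51.Homog Pool.Agent.H22.HSQ Pool.Agent.H15.HLS Pool.Agent.H42.HLS.PSQ

theorem pf_MSQ : T_MSQ := by
  intro β _ h k B hk hodd hBl hBh
  have : Fact (1 < k) := ⟨hk⟩
  obtain ⟨d, hd⟩ := two_inv hodd
  have hF : NoInt (fun i j : ZMod k => (i + j - 1) * d) := by
    intro i j i' j' h1 h2
    dsimp only at h1 h2
    constructor
    · linear_combination h1 + h2 - (i' - i) * hd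
    · linear_combination h1 - h2 - (j' - j) * hd
  have hFl : IsLatin (fun i j : ZMod k => (i + j - 1) * d) := by
    refine ⟨fun i => Function.bijective_iff_has_inverse.2 ⟨fun z => 2 * z - i + 1, ?_, ?_⟩,
      fun j => Function.bijective_iff_has_inverse.2 ⟨fun z => 2 * z - j + 1, ?_, ?_⟩⟩
    · intro j
      dsimp only
      linear_combination (i + j - 1) * hd
    · intro z
      dsimp only
      linear_combination z * hd
    · intro i
      dsimp only
      linear_combination (i + j - 1) * hd
    · intro z
      dsimp only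
      linear_combination z * hd
  refine ⟨prodSq (fun i j : ZMod k => (i + j - 1) * d) B, prod_latin hFl hBl, fun r c => ?_,
    fun i a b hh => ?_⟩
  · rw [prod_int hF]
    exact hBh _ _
  · change (i + i - 1) * d = i at hh
    have h0 : (1 : ZMod k) = 0 := by
      linear_combination (-2) * hh + (2 * i - 2) * hd + hd
    exact one_ne_zero h0

end Pool.Agent.H42.HLS.MSQ
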