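import Pool.Agent.H15.HLS.Targets

/-! Products of a latin square without intercalates and a homogeneous latin square. -/

set_option autoImplicit false

namespace Pool.Agent.H42.HLS.PSQ

open Pool.Agent.H51.Homog Pool.Agent.H22.HSQ Pool.Agent.H15.HLS

/-- the product square -/
def prodSq {α β : Type} (F : α → α → α) (B : β → β → β) (p q : α × β) : α × β :=
  (F p.1 q.1, B p.2 q.2)

theorem prod_latin {α β : Type} {F : α → α → α} {B : β → β → β} (hF : IsLatin F)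
    (hB : IsLatin B) : IsLatin (prodSq F B) :=
  ⟨fun r => (hF.1 r.1).prodMap (hB.1 r.2), fun c => (hF.2 c.1).prodMap (hB.2 c.2)⟩

/-- no intercalates -/
def NoInt {α : Type} (F : α → α → α) : Prop :=
  ∀ i j i' j', F i' j' = F i j → F i' j = F i j' → i' = i ∧ j' = j

/-- the intercalates of the product -/
theorem prod_set {α β : Type} {F : α → α → α} {B : β → β → β} (hF : NoInt F) (p q : α × β) :
    {x : (α × β) × (α × β) | x.1 ≠ p ∧ x.2 ≠ q ∧ prodSq F B x.1 x.2 = prodSq F B p q ∧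
      prodSq F B x.1 q = prodSq F B p x.2} =
    (fun y : β × β => ((p.1, y.1), (q.1, y.2))) ''
      {y | y.1 ≠ p.2 ∧ y.2 ≠ q.2 ∧ B y.1 y.2 = B p.2 q.2 ∧ B y.1 q.2 = B p.2 y.2} := by
  obtain ⟨i, a⟩ := p
  obtain ⟨j, b⟩ := q
  ext ⟨⟨i', a'⟩, ⟨j', b'⟩⟩
  simp only [Set.mem_ofPred_eq, Set.mem_image, Prod.mk.injEq, Prod.exists, prodSq, ne_eq]
  constructor
  · rintro ⟨h1, h2, ⟨h3, h4⟩, h5, h6⟩
    obtain ⟨rfl, rfl⟩ := hF _ _ _ _ h3 h5
    exact ⟨a', b', ⟨fun h => h1 ⟨rfl, h⟩, fun h => h2 ⟨rfl, h⟩, h4, h6⟩, ⟨rfl, rfl⟩, rfl, rfl⟩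
  · rintro ⟨a'', b'', ⟨h1, h2, h3, h4⟩, ⟨rfl, rfl⟩, rfl, rfl⟩
    exact ⟨fun h => h1 h.2, fun h => h2 h.2, ⟨rfl, h3⟩, rfl, h4⟩

theorem prod_int {α β : Type} {F : α → α → α} {B : β → β → β} (hF : NoInt F) (p q : α × β) :
    intercalatesAt (prodSq F B) p q = intercalatesAt B p.2 q.2 := by
  unfold intercalatesAt
  rw [prod_set hF, Set.ncard_image_of_injective]
  rintro ⟨a, b⟩ ⟨a', b'⟩ h
  simp only [Prod.mk.injEq, true_and] at h
  exact Prod.ext h.1 h.2

/-- the conjugate on a sum -/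
theorem hol_conj {W H α β : Type} {F : α → α → α} {B : β → β → β} {h : ℕ} (hF : NoInt F)
    (hFl : IsLatin F) (hBl : IsLatin B) (hBh : IsHomogeneous h B) (z : α) (hz : F z z = z)
    (e : W ⊕ H ≃ α × β) (hl : ∀ w, (e (Sum.inl w)).1 ≠ z) (hr : ∀ i, (e (Sum.inr i)).1 = z) :
    Hol h (fun r c => e.symm (prodSq F B (e r) (e c))) := by
  have hR : ∀ r : W ⊕ H, r.isRight = true ↔ (e r).1 = z := by
    rintro (w | i)
    · simp [hl w]
    · simp [hr i]
  have hlat := prod_latin hFl hBl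
  refine ⟨⟨fun r => ?_, fun c => ?_⟩, fun a b => ?_, fun r c hrc => ?_⟩
  · exact e.symm.bijective.comp ((hlat.1 (e r)).comp e.bijective)
  · exact e.symm.bijective.comp ((hlat.2 (e c)).comp e.bijective)
  · rw [hR, Equiv.apply_symm_apply]
    change F (e (Sum.inr a)).1 (e (Sum.inr b)).1 = z
    rw [hr, hr, hz]
  · have h1 : HSet (fun r c => e.symm (prodSq F B (e r) (e c))) r c =
        (fun x : (α × β) × (α × β) => (e.symm x.1, e.symm x.2)) ''
        {x : (α × β) × (α × β) | x.1 ≠ e r ∧ x.2 ≠ e c ∧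
          prodSq F B x.1 x.2 = prodSq F B (e r) (e c) ∧
          prodSq F B x.1 (e c) = prodSq F B (e r) x.2} := by
      ext ⟨r', c'⟩
      simp only [HSet, Set.mem_ofPred_eq, Set.mem_image, EmbeddingLike.apply_eq_iff_eq]
      constructor
      · rintro ⟨h1, h2, h3, h4, -⟩
        exact ⟨(e r', e c'), ⟨fun h => h1 (e.injective h), fun h => h2 (e.injective h), h3, h4⟩,
          by simp⟩
      · rintro ⟨⟨x, y⟩, ⟨h1, h2, h3, h4⟩, h5⟩
        simp only [Prod.mk.injEq] at h5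
        obtain ⟨rfl, rfl⟩ := h5
        simp only [Equiv.apply_symm_apply]
        have h6 : x.1 = (e r).1 ∧ y.1 = (e c).1 :=
          hF _ _ _ _ (congrArg Prod.fst h3) (congrArg Prod.fst h4)
        refine ⟨fun h => h1 (by rw [← h, Equiv.apply_symm_apply]),
          fun h => h2 (by rw [← h, Equiv.apply_symm_apply]), h3, h4, ?_, ?_, ?_⟩
        all_goals
          rintro ⟨h7, h8⟩
          rw [hR] at h7 h8
          simp only [Equiv.apply_symm_apply, h6.1, h6.2] at h7 h8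
          exact hrc ⟨(hR r).2 h7, (hR c).2 h8⟩
    rw [h1, Set.ncard_image_of_injective]
    · have h2 := prod_int (B := B) hF (e r) (e c)
      unfold intercalatesAt at h2
      rw [h2]
      exact hBh _ _
    · rintro ⟨x, y⟩ ⟨x', y'⟩ hh
      simp only [Prod.mk.injEq, EmbeddingLike.apply_eq_iff_eq] at hh
      exact Prod.ext hh.1 hh.2

theorem two_inv {k : ℕ} (hodd : Odd k) : ∃ d : ZMod k, 2 * d = 1 := by
  obtain ⟨m, hm⟩ := hodd
  refine ⟨((m + 1 : ℕ) : ZMod k), ?_⟩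
  have h1 : ((k + 1 : ℕ) : ZMod k) = 1 := by simp
  have h2 : k + 1 = 2 * (m + 1) := by omega
  rw [h2] at h1
  push_cast at h1 ⊢
  exact h1

end Pool.Agent.H42.HLS.PSQ
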